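import Mathlib
import Pool.Agent.Lib_helper10.AndRank.ComposeMain
import Pool.Agent.Lib_helper10.Meet.Final

set_option autoImplicit false
set_option linter.unusedSectionVars false

/-! The log-rank conjecture for compositions with gadgets other than XOR and with a meet:
`f_q (g_1 (x_1, y_1), …, g_n (x_n, y_n), a ⊓ b)`. -/

namespace Pool.Agent.Lib_helper16.LRM

open Finset Pool.Agent.Lib_helper10.LogRank Pool.Agent.Lib_helper10.AndRank
open Pool.Agent.Lib_helper10 (Meet.Lt Meet.up)

open Classical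

section mobius

variable {L : Type} [SemilatticeInf L] [Fintype L]

theorem alpha_unique (g c : L → ℝ)
    (h : ∀ v, ∑ w ∈ univ.filter (fun w : L => w ≤ v), c w = g v) (v : L) :
    Pool.Agent.Lib_helper10.Meet.alpha g v = c v := by
  have key : ∀ (n : ℕ) (v : L), (univ.filter (fun u : L => u ≤ v)).card = n →
      Pool.Agent.Lib_helper10.Meet.alpha g v = c v := by
    intro n
    induction n using Nat.strong_induction_on with
    | _ n ih =>
      intro v hv
      have h1 := h v
      have h2 : univ.filter (fun w : L => w ≤ v) = insert v (univ.filter (fun w : L => w < v)) := by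
        ext w
        simp only [mem_filter, mem_insert, mem_univ, true_and]
        rw [le_iff_eq_or_lt]
      rw [h2, Finset.sum_insert (by simp)] at h1
      rw [Pool.Agent.Lib_helper10.Meet.alpha_eq g v]
      have h3 : ∑ w ∈ univ.filter (fun w : L => w < v), Pool.Agent.Lib_helper10.Meet.alpha g w =
          ∑ w ∈ univ.filter (fun w : L => w < v), c w := by
        refine Finset.sum_congr rfl fun w hw => ?_
        refine ih _ ?_ w rfl
        rw [← hv]
        exact Pool.Agent.Lib_helper10.Meet.down_card_lt (mem_filter.1 hw).2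
      rw [h3]
      linarith
  exact key _ v rfl

theorem alpha_zero (g : L → ℝ) (hg : ∀ v, g v = 0) (v : L) :
    Pool.Agent.Lib_helper10.Meet.alpha g v = 0 :=
  alpha_unique g (fun _ => 0) (fun v => by rw [hg]; simp) v

variable {ι : Type} [DecidableEq ι] [Fintype ι]

/-- Möbius coefficients on `Finset ι × L` -/
noncomputable def bet (G : Finset ι → L → ℝ) (S : Finset ι) (w : L) : ℝ :=
  Pool.Agent.Lib_helper10.Meet.alpha
    (fun v => alpha (univ : Finset ι).powerset (fun z => G z v) S) w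

theorem sum_bet (G : Finset ι → L → ℝ) (S : Finset ι) (v : L) :
    ∑ w ∈ univ.filter (fun w : L => w ≤ v), bet G S w =
      alpha (univ : Finset ι).powerset (fun z => G z v) S :=
  Pool.Agent.Lib_helper10.Meet.sum_alpha
    (fun v => alpha (univ : Finset ι).powerset (fun z => G z v) S) v

theorem bet_eq (G : Finset ι → L → ℝ) (S : Finset ι) (w : L) :
    Pool.Agent.Lib_helper10.Meet.alpha (fun p : Finset ι × L => G p.1 p.2) (S, w) = bet G S w := by
  refine alpha_unique (fun p : Finset ι × L => G p.1 p.2)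
    (fun p : Finset ι × L => bet G p.1 p.2) ?_ (S, w)
  rintro ⟨T, v⟩
  refine (Finset.sum_congr (s₂ := T.powerset ×ˢ (univ.filter (fun w : L => w ≤ v))) ?_
    (fun _ _ => rfl)).trans ?_
  · ext ⟨a, b⟩
    simp only [mem_filter, mem_univ, true_and, mem_product, mem_powerset, Prod.mk_le_mk]
  rw [Finset.sum_product]
  simp only [sum_bet]
  have h3 := sum_alpha (univ : Finset ι).powerset (fun z => G z v) (v := T)
    (mem_powerset.2 (subset_univ _))
  rw [← h3]
  refine Finset.sum_congr ?_ fun _ _ => rfl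
  ext U
  simp

end mobius

section main

variable {ι Q : Type} {A B : ι → Type} [DecidableEq ι] [Fintype ι] [∀ i, Fintype (A i)]
  [∀ i, Fintype (B i)] [Fintype Q] {L : Type} [SemilatticeInf L] [Fintype L]

/-- the composed function -/
def pcomp (g : ∀ i, A i → B i → Bool) (f : Q → Finset ι → L → Bool) (x : (∀ i, A i) × L)
    (p : Q × ((∀ i, B i) × L)) : Bool :=
  f p.1 (univ.filter fun i => g i (x.1 i) (p.2.1 i) = true) (x.2 ⊓ p.2.2)

theorem rank_fix (g : ∀ i, A i → B i → Bool) (f : Q → Finset ι → L → Bool) (v : L) :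
    realRank (comp g (fun q z => f q z v)) ≤ realRank (pcomp g f) := by
  have h := realRank_comap (pcomp g f) (fun x : ∀ i, A i => (x, v))
    (fun p : Q × (∀ i, B i) => (p.1, (p.2, v)))
  refine le_of_eq_of_le ?_ h
  congr 1
  funext x p
  simp only [pcomp, comp, inf_idem]

theorem rank_embed (g : ∀ i, A i → B i → Bool) (f : Q → Finset ι → L → Bool)
    (αA : ∀ i, Bool → A i) (βA : ∀ i, Bool → B i)
    (hA : ∀ i u v, g i (αA i u) (βA i v) = (u && v)) :
    realRank (fun (x : Finset ι × L) (p : Q × (Finset ι × L)) =>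
      f p.1 (x ⊓ p.2).1 (x ⊓ p.2).2) ≤ realRank (pcomp g f) := by
  have h := realRank_comap (pcomp g f)
    (fun (x : Finset ι × L) => ((fun i => αA i (decide (i ∈ x.1))), x.2))
    (fun (p : Q × (Finset ι × L)) => (p.1, ((fun i => βA i (decide (i ∈ p.2.1))), p.2.2)))
  refine le_of_eq_of_le ?_ h
  congr 1
  funext x p
  unfold pcomp
  have e : (univ.filter fun i => g i (αA i (decide (i ∈ x.1))) (βA i (decide (i ∈ p.2.1))) = true) =
      (x ⊓ p.2).1 := by
    ext i
    simp only [hA, mem_filter, mem_univ, true_and, Bool.and_eq_true, decide_eq_true_eq]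
    exact mem_inter.symm
  simp only [e]
  rfl

/-- the coefficient function of a column -/
noncomputable def acf (C : ∀ i, Finset ((A i → Bool) × (B i → Bool))) (f : Q → Finset ι → L → Bool)
    (p : Q × ((∀ i, B i) × L)) (s : Finset (Lab A B) × Meet.Lt L) : ℝ :=
  if h : ∃ w : L, s.2 = Meet.up w ∧ w ≤ p.2.2 then
    Pool.Agent.Lib_helper10.Meet.alpha
      (fun v => coef C (fun q z => f q z v) (p.1, p.2.1) s.1) h.choose else 0

theorem acf_up (C : ∀ i, Finset ((A i → Bool) × (B i → Bool))) (f : Q → Finset ι → L → Bool)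
    (p : Q × ((∀ i, B i) × L)) (S : Finset (Lab A B)) (w : L) :
    acf C f p (S, Meet.up w) = if w ≤ p.2.2 then Pool.Agent.Lib_helper10.Meet.alpha
      (fun v => coef C (fun q z => f q z v) (p.1, p.2.1) S) w else 0 := by
  unfold acf
  by_cases hw : w ≤ p.2.2
  · have h : ∃ w' : L, (S, Meet.up w).2 = Meet.up w' ∧ w' ≤ p.2.2 := ⟨w, rfl, hw⟩
    rw [dif_pos h, if_pos hw]
    have e : w = h.choose := Pool.Agent.Lib_helper10.Meet.up_inj h.choose_spec.1
    rw [← e]
  · have h : ¬ ∃ w' : L, (S, Meet.up w).2 = Meet.up w' ∧ w' ≤ p.2.2 := by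
      rintro ⟨w', h1, h2⟩
      exact hw (by rwa [Pool.Agent.Lib_helper10.Meet.up_inj h1])
    rw [dif_neg h, if_neg hw]

theorem acf_ne {C : ∀ i, Finset ((A i → Bool) × (B i → Bool))} {f : Q → Finset ι → L → Bool}
    {p : Q × ((∀ i, B i) × L)} {S : Finset (Lab A B)} {u : Meet.Lt L}
    (h : acf C f p (S, u) ≠ 0) : ∃ w : L, u = Meet.up w ∧
      Pool.Agent.Lib_helper10.Meet.alpha
        (fun v => coef C (fun q z => f q z v) (p.1, p.2.1) S) w ≠ 0 := by
  unfold acf at h
  split_ifs at h with h1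
  · exact ⟨h1.choose, h1.choose_spec.1, h⟩
  · exact absurd rfl h

theorem val_acf (g : ∀ i, A i → B i → Bool) (C : ∀ i, Finset ((A i → Bool) × (B i → Bool)))
    (hC : ∀ i, Cov (g i) (C i)) (f : Q → Finset ι → L → Bool) (p : Q × ((∀ i, B i) × L))
    (x : ∀ i, A i) {z : Finset (Lab A B)} (hz : z ⊆ secX C x) (l : L) :
    Pool.Agent.Lib_helper10.Meet.val (acf C f p) (z, Meet.up l) =
      ind (fun z => f p.1 z (l ⊓ p.2.2)) (onesOf z p.2.1) := by
  have h1 : Pool.Agent.Lib_helper10.Meet.val (acf C f p) (z, Meet.up l) =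
      ∑ S ∈ z.powerset, coef C (fun q z => f q z (l ⊓ p.2.2)) (p.1, p.2.1) S := by
    unfold Pool.Agent.Lib_helper10.Meet.val
    refine (Finset.sum_congr (s₂ := z.powerset ×ˢ
      ((univ.filter (fun w : L => w ≤ l)).image Meet.up)) ?_ (fun _ _ => rfl)).trans ?_
    · ext ⟨a, b⟩
      simp only [mem_filter, mem_univ, true_and, mem_product, mem_powerset, Prod.mk_le_mk,
        mem_image]
      constructor
      · rintro ⟨h2, h3⟩
        obtain ⟨y, rfl, hy⟩ := Pool.Agent.Lib_helper10.Meet.exists_of_le_up h3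
        exact ⟨h2, y, hy, rfl⟩
      · rintro ⟨h2, y, hy, rfl⟩
        exact ⟨h2, Pool.Agent.Lib_helper10.Meet.up_le_up.2 hy⟩
    rw [Finset.sum_product]
    refine Finset.sum_congr rfl fun S _ => ?_
    rw [Finset.sum_image (fun _ _ _ _ h => Pool.Agent.Lib_helper10.Meet.up_inj h)]
    simp only [acf_up]
    rw [← Finset.sum_filter, Finset.filter_filter,
      ← Pool.Agent.Lib_helper10.Meet.sum_alpha
        (fun v => coef C (fun q z => f q z v) (p.1, p.2.1) S) (l ⊓ p.2.2)]
    refine Finset.sum_congr ?_ fun _ _ => rfl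
    ext w
    simp only [mem_filter, mem_univ, true_and, le_inf_iff]
  rw [h1]
  exact val_coef g C hC (fun q z => f q z (l ⊓ p.2.2)) (p.1, p.2.1) x hz

theorem pcomp_protocol (g : ∀ i, A i → B i → Bool) (f : Q → Finset ι → L → Bool)
    (αA : ∀ i, Bool → A i) (βA : ∀ i, Bool → B i) (hA : ∀ i u v, g i (αA i u) (βA i v) = (u && v))
    (C : ∀ i, Finset ((A i → Bool) × (B i → Bool))) (hC : ∀ i, Cov (g i) (C i))
    {t κ : ℕ} (ht : realRank (pcomp g f) < 2 ^ t) (ht1 : 1 ≤ t) (hκ : ∀ i, (C i).card ≤ 2 ^ κ)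
    (hrect : ∀ i, IsRect (g i) → (C i).card ≤ 1) :
    ∃ π : Protocol ((∀ i, A i) × L) (Q × ((∀ i, B i) × L)), π.cost ≤ 40 * (t + 6 * t * κ) ^ 5 ∧
      ∀ x p, π.eval x p = pcomp g f x p := by
  set 𝓜₀ := (univ : Finset (Finset ι × L)).filter
    (fun s => ∃ q : Q, bet (fun z v => ind (fun z => f q z v) z) s.1 s.2 ≠ 0) with h𝓜₀
  have hcard₀ : 𝓜₀.card ≤ realRank (pcomp g f) := by
    refine le_trans ?_ (rank_embed g f αA βA hA)
    refine Pool.Agent.Lib_helper10.Meet.card_le_realRank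
      (fun (q : Q) (s : Finset ι × L) => f q s.1 s.2) 𝓜₀ (fun s hs => ?_)
    obtain ⟨q, hq⟩ := (mem_filter.1 hs).2
    refine ⟨q, fun h0 => hq ?_⟩
    rw [← bet_eq (fun z v => ind (fun z => f q z v) z) s.1 s.2]
    exact h0
  have hbad : ∀ s ∈ 𝓜₀, (s.1.filter (fun i => ¬ IsRect (g i))).card ≤ 6 * t := by
    intro s hs
    obtain ⟨q, hq⟩ := (mem_filter.1 hs).2
    have hex : ∃ v : L, alpha (univ : Finset ι).powerset
        (fun z => ind (fun z => f q z v) z) s.1 ≠ 0 := by
      by_contra hcon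
      push Not at hcon
      exact hq (alpha_zero _ hcon s.2)
    obtain ⟨v, hv⟩ := hex
    refine card_bad g (fun q z => f q z v) αA βA hA (lt_of_le_of_lt (rank_fix g f v) ht) s.1 q ?_
    rw [der_eq_alpha (D := univ) _ (subset_univ _)]
    exact mul_ne_zero (pow_ne_zero _ (by norm_num)) hv
  set 𝓜 : Finset (Finset (Lab A B) × Meet.Lt L) := 𝓜₀.biUnion (fun s => (s.1.pi C).image
    (fun φ => (s.1.attach.image (fun i : {i // i ∈ s.1} => (⟨i.1, φ i.1 i.2⟩ : Lab A B)),
      Meet.up s.2))) with h𝓜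
  have hcard : 𝓜.card < 2 ^ (t + 6 * t * κ) := by
    calc 𝓜.card ≤ ∑ s ∈ 𝓜₀, ((s.1.pi C).image
          (fun φ => (s.1.attach.image
            (fun i : {i // i ∈ s.1} => (⟨i.1, φ i.1 i.2⟩ : Lab A B)), Meet.up s.2))).card :=
          card_biUnion_le
      _ ≤ ∑ s ∈ 𝓜₀, 2 ^ (6 * t * κ) := by
          refine Finset.sum_le_sum fun s hs => ?_
          calc _ ≤ (s.1.pi C).card := card_image_le
            _ = ∏ i ∈ s.1, (C i).card := card_pi _ _
            _ ≤ ∏ i ∈ s.1, (if ¬ IsRect (g i) then 2 ^ κ else 1) := by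
                refine Finset.prod_le_prod' fun i _ => ?_
                split_ifs with h
                · exact hrect i h
                · exact hκ i
            _ = (2 ^ κ) ^ (s.1.filter (fun i => ¬ IsRect (g i))).card := by
                rw [Finset.prod_ite, Finset.prod_const, Finset.prod_const_one, mul_one]
            _ ≤ (2 ^ κ) ^ (6 * t) := Nat.pow_le_pow_right (by positivity) (hbad s hs)
            _ = 2 ^ (6 * t * κ) := by rw [← pow_mul, mul_comm]
      _ = 𝓜₀.card * 2 ^ (6 * t * κ) := by rw [Finset.sum_const, smul_eq_mul]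
      _ < 2 ^ t * 2 ^ (6 * t * κ) :=
          Nat.mul_lt_mul_of_pos_right (lt_of_le_of_lt hcard₀ ht) (by positivity)
      _ = _ := (pow_add _ _ _).symm
  have hcore := Pool.Agent.Lib_helper10.Meet.core (t := t + 6 * t * κ)
    ((univ : Finset ((∀ i, A i) × L)).image (fun x => (secX C x.1, Meet.up x.2)))
    (univ : Finset (Q × ((∀ i, B i) × L))) (acf C f) 𝓜 hcard
    (by
      rintro p _ ⟨S, u⟩ _ hS
      obtain ⟨w, rfl, hw⟩ := acf_ne hS
      by_cases hcond : Set.InjOn Sigma.fst (S : Set (Lab A B)) ∧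
          (∀ s ∈ S, s.2 ∈ C s.1 ∧ s.2.2 (p.2.1 s.1) = true)
      · have h1 : bet (fun z v => ind (fun z => f p.1 z v) z) (S.image Sigma.fst) w ≠ 0 := by
          intro h0
          apply hw
          rw [← h0]
          unfold bet
          congr 1
          funext v
          unfold coef
          rw [if_pos hcond]
        obtain ⟨hinj, hrow⟩ := hcond
        rw [h𝓜, mem_biUnion]
        refine ⟨(S.image Sigma.fst, w), mem_filter.2 ⟨mem_univ _, p.1, h1⟩, ?_⟩
        have hex : ∀ i ∈ S.image Sigma.fst, ∃ ρ, (⟨i, ρ⟩ : Lab A B) ∈ S := by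
          intro i hi
          obtain ⟨s, hs, rfl⟩ := mem_image.1 hi
          exact ⟨s.2, hs⟩
        choose φ hφ using hex
        rw [mem_image]
        refine ⟨φ, ?_, ?_⟩
        · rw [mem_pi]
          intro i hi
          exact (hrow _ (hφ i hi)).1
        · refine Prod.ext ?_ rfl
          ext s
          simp only [mem_image, mem_attach, true_and]
          constructor
          · rintro ⟨i, rfl⟩
            exact hφ i.1 i.2
          · intro hs
            have hi : s.1 ∈ S.image Sigma.fst := mem_image_of_mem _ hs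
            refine ⟨⟨s.1, hi⟩, ?_⟩
            exact hinj (hφ s.1 hi) hs rfl
      · exfalso
        apply hw
        refine alpha_zero _ (fun v => ?_) w
        unfold coef
        rw [if_neg hcond])
    (by
      rintro p _ ⟨z, u⟩ ⟨x', hx', hz⟩
      obtain ⟨x, _, rfl⟩ := mem_image.1 hx'
      obtain ⟨hz1, hz2⟩ := hz
      obtain ⟨l, hl, _⟩ := Pool.Agent.Lib_helper10.Meet.exists_of_le_up hz2
      simp only at hl
      subst hl
      rw [val_acf g C hC f p x.1 hz1 l]
      unfold ind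
      split_ifs
      · right; rfl
      · left; rfl)
    (fun s p => if h : ∃ l : L, s.2 = Meet.up l then
      f p.1 (onesOf s.1 p.2.1) (h.choose ⊓ p.2.2) else false)
    (by
      intro s hs p _
      obtain ⟨x, _, rfl⟩ := mem_image.1 hs
      rw [val_acf g C hC f p x.1 Subset.rfl x.2]
      have h : ∃ l : L, (secX C x.1, Meet.up x.2).2 = Meet.up l := ⟨x.2, rfl⟩
      rw [dif_pos h]
      have e : x.2 = h.choose := Pool.Agent.Lib_helper10.Meet.up_inj h.choose_spec
      rw [← e]
      rfl)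
  obtain ⟨π, hπ1, hπ2⟩ := CCOn.comap (fun x : (∀ i, A i) × L => (secX C x.1, Meet.up x.2))
    (id : Q × ((∀ i, B i) × L) → Q × ((∀ i, B i) × L)) hcore
  refine ⟨π, hπ1.trans ?_, fun x p => ?_⟩
  · set T := t + 6 * t * κ with hT
    have hT1 : 1 ≤ T := by omega
    have e : T * (2 * ((4 * T ^ 3 + 1) * (3 * T) + T + 3)) + 2 =
        24 * T ^ 5 + 8 * T ^ 2 + 6 * T + 2 := by ring
    rw [e]
    have h1 : T ≤ T ^ 5 := by
      calc T = T ^ 1 := (pow_one T).symm
        _ ≤ T ^ 5 := Nat.pow_le_pow_right hT1 (by norm_num)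
    have h2 : T ^ 2 ≤ T ^ 5 := Nat.pow_le_pow_right hT1 (by norm_num)
    omega
  · rw [hπ2 x p ⟨mem_image_of_mem _ (mem_univ _), mem_univ _⟩]
    have h : ∃ l : L, (secX C x.1, Meet.up x.2).2 = Meet.up l := ⟨x.2, rfl⟩
    simp only [id]
    rw [dif_pos h]
    have e : x.2 = h.choose := Pool.Agent.Lib_helper10.Meet.up_inj h.choose_spec
    rw [← e, onesOf_secX g C hC]
    rfl

end main

theorem logRank_product (ι : Type) [Fintype ι] [DecidableEq ι] (A B : ι → Type)
    [∀ i, Fintype (A i)] [∀ i, Fintype (B i)] (L : Type) [SemilatticeInf L] [Fintype L]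
    (Q : Type) [Fintype Q] (g : ∀ i, A i → B i → Bool)
    (hg : ∀ i, ¬ ∃ (u : A i → Bool) (v : B i → Bool), ∀ a b, g i a b = xor (u a) (v b))
    (κ : ℕ) (hκ : ∀ i, ∃ ρ : Protocol (A i) (B i), ρ.cost ≤ κ ∧ ∀ a b, ρ.eval a b = g i a b)
    (f : Q → (ι → Bool) → L → Bool) :
    ∃ π : Protocol ((∀ i, A i) × L) (Q × ((∀ i, B i) × L)),
      (∀ x p, π.eval x p = f p.1 (fun i => g i (x.1 i) (p.2.1 i)) (x.2 ⊓ p.2.2)) ∧
      (π.cost : ℝ) ≤ 40 * ((1 + 6 * κ) *
        (1 + Real.logb 2 (realRank fun (x : (∀ i, A i) × L) (p : Q × ((∀ i, B i) × L)) =>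
          f p.1 (fun i => g i (x.1 i) (p.2.1 i)) (x.2 ⊓ p.2.2)))) ^ 5 := by
  have h := fun i => exists_and (g i) (hg i)
  choose σ αA βA hA using h
  set g' : ∀ i, A i → B i → Bool := fun i a b => xor (σ i) (g i a b) with hg'
  set f' : Q → Finset ι → L → Bool :=
    fun q z l => f q (fun i => xor (σ i) (decide (i ∈ z))) l with hf'
  have hcov : ∀ i, ∃ C : Finset ((A i → Bool) × (B i → Bool)), C.card ≤ 2 ^ κ ∧
      (IsRect (g' i) → C.card ≤ 1) ∧ Cov (g' i) C := by
    intro i
    by_cases hr : IsRect (g' i)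
    · obtain ⟨C, h1, h2⟩ := cov_rect _ hr
      exact ⟨C, h1.trans Nat.one_le_two_pow, fun _ => h1, h2⟩
    · obtain ⟨ρ, h1, h2⟩ := hκ i
      obtain ⟨ρ', h3, h4⟩ := protocol_xor (σ i) ρ
      obtain ⟨C, h5, h6⟩ := cov_protocol ρ'
      refine ⟨C, h5.trans (Nat.pow_le_pow_right (by norm_num) (h3.le.trans h1)),
        fun h => absurd h hr, ?_⟩
      have : ρ'.eval = g' i := by
        funext a b
        rw [h4, h2]
      rwa [this] at h6
  choose C hC1 hC2 hC3 using hcov
  have hcomp : (fun (x : (∀ i, A i) × L) (p : Q × ((∀ i, B i) × L)) =>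
      f p.1 (fun i => g i (x.1 i) (p.2.1 i)) (x.2 ⊓ p.2.2)) = pcomp g' f' := by
    funext x p
    unfold pcomp
    simp only [hf', hg']
    congr 1
    funext i
    simp only [mem_filter, mem_univ, true_and]
    cases σ i <;> cases g i (x.1 i) (p.2.1 i) <;> rfl
  rw [hcomp]
  set r := realRank (pcomp g' f') with hr
  set t := Nat.log 2 r + 1 with ht
  have hrt : r < 2 ^ t := Nat.lt_pow_succ_log_self (by norm_num) r
  obtain ⟨π, hπ1, hπ2⟩ := pcomp_protocol g' f' αA βA hA C hC3 hrt (by omega) hC1 hC2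
  refine ⟨π, fun x p => ?_, ?_⟩
  · rw [hπ2 x p, ← hcomp]
  · have hlog : (t : ℝ) ≤ 1 + Real.logb 2 r := by
      have : (Nat.log 2 r : ℝ) ≤ Real.logb 2 r := by exact_mod_cast Real.natLog_le_logb r 2
      rw [ht]; push_cast; linarith
    have hT : ((t + 6 * t * κ : ℕ) : ℝ) ≤ (1 + 6 * κ) * (1 + Real.logb 2 r) := by
      push_cast
      have e : (t : ℝ) + 6 * t * κ = (1 + 6 * κ) * t := by ring
      rw [e]
      exact mul_le_mul_of_nonneg_left hlog (by positivity)
    have h1 : (π.cost : ℝ) ≤ 40 * ((t + 6 * t * κ : ℕ) : ℝ) ^ 5 := by exact_mod_cast hπ1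
    have h2 : ((t + 6 * t * κ : ℕ) : ℝ) ^ 5 ≤ ((1 + 6 * κ) * (1 + Real.logb 2 r)) ^ 5 :=
      pow_le_pow_left₀ (by positivity) hT 5
    linarith

end Pool.Agent.Lib_helper16.LRM
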